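import Mathlib
import Pool.Agent.Run7.h185.CubicReal
import Pool.Agent.Run7.h185.SymPencil
import Pool.Agent.Run7.h185.MvAux

/-!
Degree-preserving amalgamation of real zero polynomials fails for two shared variables:
`p = (1 + y)(1 - x₁²) - x₂²(2 + x₁)` and `q = (1 - x₁ + z)(1 + x₁) - x₂²(2 + x₁)` are real zero
polynomials of degree `3` which agree at `y = 0`, `z = 0`, and no real zero polynomial of degree
at most `3` in `x₁, x₂, y, z` restricts to both.
-/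

namespace Pool.Agent.Results.MP_eea824_ag.NoAmalgam

open MvPolynomial

/-- `f` is a real zero polynomial: for every real point `a` and complex `l`, `f (l a) = 0`
forces `l` to be real. -/
def RealZero {σ : Type} (f : MvPolynomial σ ℝ) : Prop :=
  ∀ (a : σ → ℝ) (l : ℂ), aeval (fun i => l * (a i : ℂ)) f = 0 → l.im = 0

/-- `p(x, y) ↦ p(x, 0)` (and `q(x, z) ↦ q(x, 0)`). -/
noncomputable def atZero {m : ℕ} :
    MvPolynomial (Fin 2 ⊕ Fin m) ℝ →ₐ[ℝ] MvPolynomial (Fin 2) ℝ :=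
  aeval (Sum.elim X (fun _ => 0))

/-- `r(x, y, z) ↦ r(x, y, 0)`. -/
noncomputable def zZero {m n : ℕ} :
    MvPolynomial (Fin 2 ⊕ (Fin m ⊕ Fin n)) ℝ →ₐ[ℝ] MvPolynomial (Fin 2 ⊕ Fin m) ℝ :=
  aeval (Sum.elim (fun i => X (Sum.inl i))
    (Sum.elim (fun j => X (Sum.inr j)) (fun _ => 0)))

/-- `r(x, y, z) ↦ r(x, 0, z)`. -/
noncomputable def yZero {m n : ℕ} :
    MvPolynomial (Fin 2 ⊕ (Fin m ⊕ Fin n)) ℝ →ₐ[ℝ] MvPolynomial (Fin 2 ⊕ Fin n) ℝ :=
  aeval (Sum.elim (fun i => X (Sum.inl i))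
    (Sum.elim (fun _ => 0) (fun k => X (Sum.inr k))))

/-- `p = (1 + y)(1 - x₁²) - x₂²(2 + x₁)` -/
noncomputable def P : MvPolynomial (Fin 2 ⊕ Fin 1) ℝ :=
  (1 + X (Sum.inr 0)) * (1 - X (Sum.inl 0) ^ 2) - X (Sum.inl 1) ^ 2 * (2 + X (Sum.inl 0))

/-- `q = (1 - x₁ + z)(1 + x₁) - x₂²(2 + x₁)` -/
noncomputable def Q : MvPolynomial (Fin 2 ⊕ Fin 1) ℝ :=
  (1 - X (Sum.inl 0) + X (Sum.inr 0)) * (1 + X (Sum.inl 0))
    - X (Sum.inl 1) ^ 2 * (2 + X (Sum.inl 0))

lemma realZero_P : RealZero P := by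
  intro a l h
  set s : ℝ := Real.sqrt (3 / 2) with hs
  set t : ℝ := Real.sqrt (1 / 2) with ht
  have hs2 : s ^ 2 = 3 / 2 := Real.sq_sqrt (by norm_num)
  have ht2 : t ^ 2 = 1 / 2 := Real.sq_sqrt (by norm_num)
  have hs2' : (s : ℂ) ^ 2 = 3 / 2 := by rw [← Complex.ofReal_pow, hs2]; norm_num
  have ht2' : (t : ℂ) ^ 2 = 1 / 2 := by rw [← Complex.ofReal_pow, ht2]; norm_num
  apply Run7.h185.SymPencil.im_eq_zero_of_det
    (!![-a (Sum.inl 0), s * a (Sum.inl 1), 0;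
        s * a (Sum.inl 1), a (Sum.inr 0), t * a (Sum.inl 1);
        0, t * a (Sum.inl 1), a (Sum.inl 0)] : Matrix (Fin 3) (Fin 3) ℝ)
  · ext i j
    fin_cases i <;> fin_cases j <;> simp [Matrix.transpose]
  · simp [P] at h
    rw [Matrix.det_fin_three]
    simp
    linear_combination h - (l * a (Sum.inl 1)) ^ 2 * (1 + l * a (Sum.inl 0)) * hs2'
      - (l * a (Sum.inl 1)) ^ 2 * (1 - l * a (Sum.inl 0)) * ht2'

lemma realZero_Q : RealZero Q := by
  intro a l h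
  apply Run7.h185.SymPencil.im_eq_zero_of_det
    (!![-a (Sum.inl 0) + a (Sum.inr 0), a (Sum.inl 1), a (Sum.inl 1);
        a (Sum.inl 1), 0, 0;
        a (Sum.inl 1), 0, a (Sum.inl 0)] : Matrix (Fin 3) (Fin 3) ℝ)
  · ext i j
    fin_cases i <;> fin_cases j <;> simp [Matrix.transpose]
  · simp [Q] at h
    rw [Matrix.det_fin_three]
    simp
    linear_combination h

lemma totalDegree_two : (2 : MvPolynomial (Fin 2 ⊕ Fin 1) ℝ).totalDegree = 0 := by
  have : (2 : MvPolynomial (Fin 2 ⊕ Fin 1) ℝ) = C 2 := (map_ofNat C 2).symm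
  rw [this, totalDegree_C]

lemma totalDegree_P : P.totalDegree ≤ 3 := by
  unfold P
  refine (totalDegree_sub _ _).trans (max_le ?_ ?_)
  · refine (totalDegree_mul _ _).trans ?_
    have h1 : (1 + X (Sum.inr 0) : MvPolynomial (Fin 2 ⊕ Fin 1) ℝ).totalDegree ≤ 1 :=
      (totalDegree_add _ _).trans (max_le (by simp) (by simp))
    have h2 : (1 - X (Sum.inl 0) ^ 2 : MvPolynomial (Fin 2 ⊕ Fin 1) ℝ).totalDegree ≤ 2 :=
      (totalDegree_sub _ _).trans (max_le (by simp) (by simp))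
    omega
  · refine (totalDegree_mul _ _).trans ?_
    have h1 : (X (Sum.inl 1) ^ 2 : MvPolynomial (Fin 2 ⊕ Fin 1) ℝ).totalDegree ≤ 2 := by simp
    have h2 : (2 + X (Sum.inl 0) : MvPolynomial (Fin 2 ⊕ Fin 1) ℝ).totalDegree ≤ 1 :=
      (totalDegree_add _ _).trans (max_le (by rw [totalDegree_two]; omega) (by simp))
    omega

lemma totalDegree_Q : Q.totalDegree ≤ 3 := by
  unfold Q
  refine (totalDegree_sub _ _).trans (max_le ?_ ?_)
  · refine (totalDegree_mul _ _).trans ?_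
    have h1 : (1 - X (Sum.inl 0) + X (Sum.inr 0) :
        MvPolynomial (Fin 2 ⊕ Fin 1) ℝ).totalDegree ≤ 1 :=
      (totalDegree_add _ _).trans
        (max_le ((totalDegree_sub _ _).trans (max_le (by simp) (by simp))) (by simp))
    have h2 : (1 + X (Sum.inl 0) : MvPolynomial (Fin 2 ⊕ Fin 1) ℝ).totalDegree ≤ 1 :=
      (totalDegree_add _ _).trans (max_le (by simp) (by simp))
    omega
  · refine (totalDegree_mul _ _).trans ?_
    have h1 : (X (Sum.inl 1) ^ 2 : MvPolynomial (Fin 2 ⊕ Fin 1) ℝ).totalDegree ≤ 2 := by simp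
    have h2 : (2 + X (Sum.inl 0) : MvPolynomial (Fin 2 ⊕ Fin 1) ℝ).totalDegree ≤ 1 :=
      (totalDegree_add _ _).trans (max_le (by rw [totalDegree_two]; omega) (by simp))
    omega

/-- the polynomial `p + q - c` in the variables `x₁, x₂, y, z` -/
noncomputable def R0 : MvPolynomial (Fin 2 ⊕ (Fin 1 ⊕ Fin 1)) ℝ :=
  (1 + X (Sum.inr (Sum.inl 0))) * (1 - X (Sum.inl 0) ^ 2)
    + X (Sum.inr (Sum.inr 0)) * (1 + X (Sum.inl 0))
    - X (Sum.inl 1) ^ 2 * (2 + X (Sum.inl 0))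

lemma totalDegree_R0 : R0.totalDegree ≤ 3 := by
  unfold R0
  have h2' : (2 : MvPolynomial (Fin 2 ⊕ (Fin 1 ⊕ Fin 1)) ℝ).totalDegree = 0 := by
    have : (2 : MvPolynomial (Fin 2 ⊕ (Fin 1 ⊕ Fin 1)) ℝ) = C 2 := (map_ofNat C 2).symm
    rw [this, totalDegree_C]
  refine (totalDegree_sub _ _).trans (max_le ((totalDegree_add _ _).trans (max_le ?_ ?_)) ?_)
  · refine (totalDegree_mul _ _).trans ?_
    have h1 : (1 + X (Sum.inr (Sum.inl 0)) :
        MvPolynomial (Fin 2 ⊕ (Fin 1 ⊕ Fin 1)) ℝ).totalDegree ≤ 1 :=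
      (totalDegree_add _ _).trans (max_le (by simp) (by simp))
    have h2 : (1 - X (Sum.inl 0) ^ 2 :
        MvPolynomial (Fin 2 ⊕ (Fin 1 ⊕ Fin 1)) ℝ).totalDegree ≤ 2 :=
      (totalDegree_sub _ _).trans (max_le (by simp) (by simp))
    omega
  · refine (totalDegree_mul _ _).trans ?_
    have h1 : (X (Sum.inr (Sum.inr 0)) :
        MvPolynomial (Fin 2 ⊕ (Fin 1 ⊕ Fin 1)) ℝ).totalDegree ≤ 1 := by simp
    have h2 : (1 + X (Sum.inl 0) : MvPolynomial (Fin 2 ⊕ (Fin 1 ⊕ Fin 1)) ℝ).totalDegree ≤ 1 :=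
      (totalDegree_add _ _).trans (max_le (by simp) (by simp))
    omega
  · refine (totalDegree_mul _ _).trans ?_
    have h1 : (X (Sum.inl 1) ^ 2 :
        MvPolynomial (Fin 2 ⊕ (Fin 1 ⊕ Fin 1)) ℝ).totalDegree ≤ 2 := by simp
    have h2 : (2 + X (Sum.inl 0) : MvPolynomial (Fin 2 ⊕ (Fin 1 ⊕ Fin 1)) ℝ).totalDegree ≤ 1 :=
      (totalDegree_add _ _).trans (max_le (by rw [h2']; omega) (by simp))
    omega

open Run7.h185.MvAux in
/-- the shape of an amalgam of total degree at most `3` -/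
lemma shape (r : MvPolynomial (Fin 2 ⊕ (Fin 1 ⊕ Fin 1)) ℝ) (hdeg : r.totalDegree ≤ 3)
    (hP : zZero r = P) (hQ : yZero r = Q) :
    ∃ l0 l1 l2 k1 k2 : ℝ, r = R0 + X (Sum.inr (Sum.inl 0)) * (X (Sum.inr (Sum.inr 0)) *
      (C l0 + (C l1 * X (Sum.inl 0) + C l2 * X (Sum.inl 1) +
        (C k1 * X (Sum.inr (Sum.inl 0)) + C k2 * X (Sum.inr (Sum.inr 0)))))) := by
  set D := r - R0 with hD
  have hDdeg : D.totalDegree ≤ 3 :=
    (totalDegree_sub _ _).trans (max_le hdeg totalDegree_R0)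
  have hz : zZero D = 0 := by
    rw [hD, map_sub, hP]
    simp only [R0, P, zZero, map_add, map_mul, map_sub, map_pow, map_one, map_ofNat, aeval_X,
      Sum.elim_inl, Sum.elim_inr]
    ring
  have hy : yZero D = 0 := by
    rw [hD, map_sub, hQ]
    simp only [R0, Q, yZero, map_add, map_mul, map_sub, map_pow, map_one, map_ofNat, aeval_X,
      Sum.elim_inl, Sum.elim_inr]
    ring
  -- divisibility by `y`
  have hky : kill (Sum.inr (Sum.inl 0)) D = 0 := by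
    have : (kill (Sum.inr (Sum.inl 0)) : MvPolynomial (Fin 2 ⊕ (Fin 1 ⊕ Fin 1)) ℝ →ₐ[ℝ] _) =
        (rename (Sum.elim Sum.inl (fun k => Sum.inr (Sum.inr k)))).comp yZero := by
      apply MvPolynomial.algHom_ext
      intro i
      rcases i with i | j | k
      · simp [kill, yZero]
      · simp [kill, yZero, Subsingleton.elim j 0]
      · simp [kill, yZero]
    rw [this, AlgHom.comp_apply, hy, map_zero]
  have hkz : kill (Sum.inr (Sum.inr 0)) D = 0 := by
    have : (kill (Sum.inr (Sum.inr 0)) : MvPolynomial (Fin 2 ⊕ (Fin 1 ⊕ Fin 1)) ℝ →ₐ[ℝ] _) =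
        (rename (Sum.elim Sum.inl (fun k => Sum.inr (Sum.inl k)))).comp zZero := by
      apply MvPolynomial.algHom_ext
      intro i
      rcases i with i | j | k
      · simp [kill, zZero]
      · simp [kill, zZero]
      · simp [kill, zZero, Subsingleton.elim k 0]
    rw [this, AlgHom.comp_apply, hz, map_zero]
  obtain ⟨D1, hD1⟩ := X_dvd_of_kill_eq_zero hky
  have hk1 : kill (Sum.inr (Sum.inr 0)) D1 = 0 := by
    rw [hD1, map_mul] at hkz
    have hX : kill (Sum.inr (Sum.inr 0))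
        (X (Sum.inr (Sum.inl 0)) : MvPolynomial (Fin 2 ⊕ (Fin 1 ⊕ Fin 1)) ℝ)
        = X (Sum.inr (Sum.inl 0)) := by simp [kill]
    rw [hX] at hkz
    exact (mul_eq_zero.mp hkz).resolve_left (X_ne_zero _)
  obtain ⟨D2, hD2⟩ := X_dvd_of_kill_eq_zero hk1
  have hD2deg : D2.totalDegree ≤ 1 := by
    by_cases h0 : D2 = 0
    · simp [h0]
    · rw [hD1, hD2, totalDegree_mul_of_isDomain (X_ne_zero _) (mul_ne_zero (X_ne_zero _) h0),
        totalDegree_mul_of_isDomain (X_ne_zero _) h0, totalDegree_X, totalDegree_X] at hDdeg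
      omega
  have haff := eq_affine hD2deg
  rw [Fintype.sum_sum_type, Fintype.sum_sum_type] at haff
  simp only [Fin.sum_univ_two, Finset.univ_unique, Fin.default_eq_zero, Fin.isValue,
    Finset.sum_singleton] at haff
  refine ⟨coeff 0 D2, coeff (Finsupp.single (Sum.inl 0) 1) D2,
    coeff (Finsupp.single (Sum.inl 1) 1) D2,
    coeff (Finsupp.single (Sum.inr (Sum.inl 0)) 1) D2,
    coeff (Finsupp.single (Sum.inr (Sum.inr 0)) 1) D2, ?_⟩
  rw [← haff, ← hD2, ← hD1, hD]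
  ring

/-- the real zero condition along the line through `(x₁, x₂, y, z)` -/
lemma line {l0 l1 l2 k1 k2 : ℝ} {r : MvPolynomial (Fin 2 ⊕ (Fin 1 ⊕ Fin 1)) ℝ}
    (hr : RealZero r)
    (hshape : r = R0 + X (Sum.inr (Sum.inl 0)) * (X (Sum.inr (Sum.inr 0)) *
      (C l0 + (C l1 * X (Sum.inl 0) + C l2 * X (Sum.inl 1) +
        (C k1 * X (Sum.inr (Sum.inl 0)) + C k2 * X (Sum.inr (Sum.inr 0))))))) 
    (x1 x2 y z : ℝ) (l : ℂ)
    (h : (1 + l * y) * (1 - (l * x1) ^ 2) + l * z * (1 + l * x1) - (l * x2) ^ 2 * (2 + l * x1)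
      + l * y * (l * z * (l0 + (l1 * (l * x1) + l2 * (l * x2) + (k1 * (l * y) + k2 * (l * z))))) = 0) :
    l.im = 0 := by
  apply hr (Sum.elim ![x1, x2] (Sum.elim (fun _ => y) (fun _ => z))) l
  rw [hshape]
  simp only [R0, map_add, map_mul, map_sub, map_pow, map_one, aeval_X, Sum.elim_inl, Sum.elim_inr,
    aeval_C, map_ofNat]
  simpa using h

/-- if `u Z ≤ M Z²` for all small `Z` then `u = 0` -/
lemma lin_quad {u M : ℝ} (h : ∀ Z : ℝ, |Z| ≤ 1 → u * Z ≤ M * Z ^ 2) : u = 0 := by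
  by_contra hu
  set K : ℝ := |M| + |u| + 1 with hK
  have hKpos : 0 < K := by positivity
  have hu2 : 0 < u ^ 2 := by positivity
  have h1 := h (u / K) (by
    rw [abs_div, abs_of_pos hKpos, div_le_one hKpos, hK]
    linarith [abs_nonneg M])
  have h2 : u ^ 2 * K ≤ M * u ^ 2 := by
    have e1 : u * (u / K) = (u ^ 2 * K) / K ^ 2 := by field_simp
    have e2 : M * (u / K) ^ 2 = (M * u ^ 2) / K ^ 2 := by field_simp
    rw [e1, e2, div_le_div_iff_of_pos_right (by positivity)] at h1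
    exact h1
  have h3 : K ≤ M := by nlinarith
  linarith [le_abs_self M, abs_nonneg u]

open Run7.h185.CubicReal in
/-- no real zero polynomial has the required shape -/
lemma no_shape {l0 l1 l2 k1 k2 : ℝ} {r : MvPolynomial (Fin 2 ⊕ (Fin 1 ⊕ Fin 1)) ℝ}
    (hr : RealZero r)
    (hshape : r = R0 + X (Sum.inr (Sum.inl 0)) * (X (Sum.inr (Sum.inr 0)) *
      (C l0 + (C l1 * X (Sum.inl 0) + C l2 * X (Sum.inl 1) +
        (C k1 * X (Sum.inr (Sum.inl 0)) + C k2 * X (Sum.inr (Sum.inr 0)))))) ) : False := by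
  -- the coefficients of the restriction to the line through `(x₁, x₂, y, z)`
  have key : ∀ x1 x2 y z : ℝ,
      2 * (y + z) * (-(y * x1 ^ 2) - x2 ^ 2 * x1
          + y * z * (l1 * x1 + l2 * x2 + k1 * y + k2 * z))
        ≤ (-(x1 ^ 2) + z * x1 - 2 * x2 ^ 2 + l0 * y * z) ^ 2 ∧
      ∀ t : ℝ, (1 + (y + z) * t + (-(x1 ^ 2) + z * x1 - 2 * x2 ^ 2 + l0 * y * z) * t ^ 2
          + (-(y * x1 ^ 2) - x2 ^ 2 * x1 + y * z * (l1 * x1 + l2 * x2 + k1 * y + k2 * z)) * t ^ 3)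
          * (2 * (-(x1 ^ 2) + z * x1 - 2 * x2 ^ 2 + l0 * y * z)
            + 6 * (-(y * x1 ^ 2) - x2 ^ 2 * x1
              + y * z * (l1 * x1 + l2 * x2 + k1 * y + k2 * z)) * t)
        ≤ ((y + z) + 2 * (-(x1 ^ 2) + z * x1 - 2 * x2 ^ 2 + l0 * y * z) * t
          + 3 * (-(y * x1 ^ 2) - x2 ^ 2 * x1
            + y * z * (l1 * x1 + l2 * x2 + k1 * y + k2 * z)) * t ^ 2) ^ 2 := by
    intro x1 x2 y z
    apply cubic_ineq
    intro l hl
    apply line hr hshape x1 x2 y z l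
    push_cast at hl
    linear_combination hl
  -- `k1 = 0`
  have hk1 : k1 = 0 := by
    have : 2 * k1 = 0 := by
      apply lin_quad (M := l0 ^ 2 + 2 * |k1 + k2| + 2 * |k2|)
      intro Z hZ
      have a := (key 0 0 1 Z).1
      have b1 : -(2 * (k1 + k2)) * Z ^ 2 ≤ 2 * |k1 + k2| * Z ^ 2 :=
        mul_le_mul_of_nonneg_right (by linarith [neg_abs_le (k1 + k2)]) (sq_nonneg Z)
      have b2 : -(2 * (k2 * Z)) * Z ^ 2 ≤ 2 * |k2| * Z ^ 2 := by
        apply mul_le_mul_of_nonneg_right _ (sq_nonneg Z)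
        have : |k2 * Z| ≤ |k2| := by
          rw [abs_mul]
          exact mul_le_of_le_one_right (abs_nonneg _) hZ
        linarith [neg_abs_le (k2 * Z)]
      nlinarith
    linarith
  have hk2 : k2 = 0 := by
    subst hk1
    have : 2 * k2 = 0 := by
      apply lin_quad (M := l0 ^ 2 + 2 * |k2|)
      intro Z hZ
      have a := (key 0 0 Z 1).1
      have b1 : -(2 * k2) * Z ^ 2 ≤ 2 * |k2| * Z ^ 2 :=
        mul_le_mul_of_nonneg_right (by linarith [neg_abs_le k2]) (sq_nonneg Z)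
      nlinarith
    linarith
  subst hk1 hk2
  have hl01 : l0 = l1 := by
    have : 4 * (l1 - l0) = 0 := by
      apply lin_quad (M := (-1 - 2 * l0 + 3 * l1) ^ 2 - (l1 - l0) * (-2 - 2 * l0 + 6 * l1))
      intro Z _
      have a := (key (-1) 0 (-1) Z).2 1
      nlinarith
    linarith
  have hl01' : l0 + l1 = 2 := by
    have : 4 * (2 - l0 - l1) = 0 := by
      apply lin_quad (M := (3 - 2 * l0 - 3 * l1) ^ 2
        - (2 - l0 - l1) * (2 - 2 * l0 - 6 * l1))
      intro Z _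
      have a := (key 1 0 (-1) Z).2 1
      nlinarith
    linarith
  have h0 : l0 = 1 := by linarith
  have h1 : l1 = 1 := by linarith
  subst h0 h1
  have hl2 : l2 = 0 := by
    have a := (key 0 1 2 1).1
    have b := (key 0 (-1) 2 1).1
    norm_num at a b
    linarith
  subst hl2
  have := (key (-3) (3 / 4) (-2) (-5)).2 (1 / 2)
  norm_num at this

/-- **Failure of degree-preserving amalgamation with two shared variables** (`d = 3`,
`m = n = 1`): there are real zero polynomials `p ∈ ℝ[x₁, x₂, y]`, `q ∈ ℝ[x₁, x₂, z]` of total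
degree at most `3` with `p(x, 0) = q(x, 0)` such that no real zero `r ∈ ℝ[x₁, x₂, y, z]` of total
degree at most `3` satisfies `r(x, y, 0) = p` and `r(x, 0, z) = q`. -/
theorem result :
    ∃ (p q : MvPolynomial (Fin 2 ⊕ Fin 1) ℝ),
      RealZero p ∧ RealZero q ∧ p.totalDegree ≤ 3 ∧ q.totalDegree ≤ 3 ∧
      atZero p = atZero q ∧
      ¬ ∃ r : MvPolynomial (Fin 2 ⊕ (Fin 1 ⊕ Fin 1)) ℝ,
        RealZero r ∧ r.totalDegree ≤ 3 ∧ zZero r = p ∧ yZero r = q := by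
  refine ⟨P, Q, realZero_P, realZero_Q, totalDegree_P, totalDegree_Q, ?_, ?_⟩
  · simp only [P, Q, atZero, map_add, map_mul, map_sub, map_pow, map_one, map_ofNat, aeval_X,
      Sum.elim_inl, Sum.elim_inr]
    ring
  · rintro ⟨r, hr, hdeg, hP, hQ⟩
    obtain ⟨l0, l1, l2, k1, k2, hshape⟩ := shape r hdeg hP hQ
    exact no_shape hr hshape

end Pool.Agent.Results.MP_eea824_ag.NoAmalgam
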